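import Mathlib
import Pool.Agent.R375.Flow

/-!
# Unit vector flows in `ℝ³` of rank at most two yield `4`-flows
-/

set_option autoImplicit false
set_option linter.unusedSectionVars false

namespace Pool.Agent.Results.MP_12428a_co.RankTwo

open Finset Pool.Agent.R375.Flow

section Defs

variable {V E : Type} [Fintype V] [DecidableEq V] [Fintype E] [DecidableEq E]

/-- An oriented finite multigraph is given by the maps `src tgt : E → V` (tail and head of every
edge; parallel edges and loops are allowed). `net src tgt f v` is the sum of `f` over the non-loop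
edges with tail `v` minus the sum of `f` over the non-loop edges with head `v`. -/
def net {A : Type} [AddCommGroup A] (src tgt : E → V) (f : E → A) (v : V) : A :=
  (∑ e ∈ univ.filter (fun e => src e = v ∧ src e ≠ tgt e), f e) -
    ∑ e ∈ univ.filter (fun e => tgt e = v ∧ src e ≠ tgt e), f e

/-- Kirchhoff's law at every vertex. -/
def IsFlow {A : Type} [AddCommGroup A] (src tgt : E → V) (f : E → A) : Prop :=
  ∀ v, net src tgt f v = 0

/-- The balanced vector of the vertex `v` for `φ`: its coordinate at the value `x` is the number of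
non-loop edges with tail `v` and value `x` minus the number of non-loop edges with head `v` and
value `x`. (It is zero at every `x` which is not a value of `φ`.) -/
noncomputable def balanced (src tgt : E → V) (φ : E → EuclideanSpace ℝ (Fin 3)) (v : V) :
    EuclideanSpace ℝ (Fin 3) → ℚ := by
  classical
  exact fun x => net src tgt (fun e => if φ e = x then (1 : ℚ) else 0) v

/-- `S_ℚ(φ)`: the `ℚ`-linear span of the balanced vectors. -/
noncomputable def SQ (src tgt : E → V) (φ : E → EuclideanSpace ℝ (Fin 3)) :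
    Submodule ℚ (EuclideanSpace ℝ (Fin 3) → ℚ) :=
  Submodule.span ℚ (Set.range (balanced src tgt φ))

lemma net_eq {A : Type} [AddCommGroup A] (src tgt : E → V) (f : E → A) (v : V) :
    net src tgt f v = net' src tgt f v := by
  rw [net, net', Finset.sum_filter, Finset.sum_filter, ← Finset.sum_sub_distrib]
  apply Finset.sum_congr rfl
  intro e _
  by_cases h : src e = tgt e
  · simp [h]
  · simp [h]

end Defs

/-! ### The colouring lemma -/

section Colouring

variable {C : Type} [Fintype C] [DecidableEq C]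

/-- The number of non-zero coordinates. -/
noncomputable def supp (μ : C → ℚ) : Finset C := univ.filter fun c => μ c ≠ 0

lemma mem_supp {μ : C → ℚ} {c : C} : c ∈ supp μ ↔ μ c ≠ 0 := by simp [supp]

lemma eq_smul (S : Submodule ℚ (C → ℚ)) (h2 : Module.finrank ℚ S ≤ 2) {l m n : C → ℚ}
    (hl : l ∈ S) (hm : m ∈ S) (hn : n ∈ S) {r : C} (hlr : l r ≠ 0) (hmr : m r = 0) (hm0 : m ≠ 0)
    (hnr : n r = 0) : ∃ t : ℚ, n = t • m := by
  by_contra hno
  push Not at hno
  have hli : LinearIndependent ℚ ![(⟨l, hl⟩ : S), ⟨m, hm⟩, ⟨n, hn⟩] := by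
    rw [Fintype.linearIndependent_iff]
    intro g hg
    rw [Fin.sum_univ_three] at hg
    have hg' := congrArg Subtype.val hg
    simp only [Matrix.cons_val_zero, Matrix.cons_val_one, Matrix.cons_val,
      Submodule.coe_add, Submodule.coe_smul, ZeroMemClass.coe_zero] at hg'
    have h0 : g 0 = 0 := by
      have := congrFun hg' r
      simp [hmr, hnr] at this
      exact this.resolve_right hlr
    rw [h0, zero_smul, zero_add] at hg'
    have h3 : g 2 = 0 := by
      by_contra h3
      apply hno (-(g 1) / g 2)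
      have h4 : g 2 • n = -(g 1) • m := by
        rw [neg_smul, eq_neg_iff_add_eq_zero, add_comm]
        exact hg'
      rw [div_eq_inv_mul, ← smul_smul, ← h4, smul_smul, inv_mul_cancel₀ h3, one_smul]
    rw [h3, zero_smul, add_zero] at hg'
    have h1 : g 1 = 0 := (smul_eq_zero.1 hg').resolve_right hm0
    intro i
    fin_cases i
    · exact h0
    · exact h1
    · exact h3
  have h5 := hli.fintype_card_le_finrank
  simp at h5
  omega

/-- The colouring lemma: in a subspace of `ℚ^C` of dimension at most two all of whose non-zero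
vectors have at least three non-zero coordinates, the coordinates can be coloured with two colours
such that no non-zero vector has monochromatic support. -/
lemma colouring (S : Submodule ℚ (C → ℚ)) (h2 : Module.finrank ℚ S ≤ 2)
    (h3 : ∀ μ ∈ S, μ ≠ 0 → 3 ≤ (supp μ).card) :
    ∃ K : C → Prop, ∀ μ ∈ S, μ ≠ 0 → (∃ c, K c ∧ μ c ≠ 0) ∧ ∃ c, ¬ K c ∧ μ c ≠ 0 := by
  classical
  by_cases hA : ∃ r b : C, r ≠ b ∧ ∃ m ∈ S, m ≠ 0 ∧ m r = 0 ∧ m b = 0 ∧ (∃ l ∈ S, l r ≠ 0) ∧
      ∃ l ∈ S, l b ≠ 0
  · obtain ⟨r, b, hrb, m, hm, hm0, hmr, hmb, ⟨l, hl, hlr⟩, l', hl', hlb⟩ := hA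
    have h4 := h3 m hm hm0
    obtain ⟨r2, hr2, b2, hb2, hrb2⟩ := Finset.one_lt_card.1 (by omega : 1 < (supp m).card)
    rw [mem_supp] at hr2 hb2
    refine ⟨fun c => c = r ∨ c = r2, fun n hn hn0 => ⟨?_, ?_⟩⟩
    · by_cases hnr : n r = 0
      · obtain ⟨t, ht⟩ := eq_smul S h2 hl hm hn hlr hmr hm0 hnr
        refine ⟨r2, Or.inr rfl, ?_⟩
        have ht0 : t ≠ 0 := by
          rintro rfl
          rw [zero_smul] at ht
          exact hn0 ht
        rw [ht, Pi.smul_apply, smul_eq_mul]
        exact mul_ne_zero ht0 hr2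
      · exact ⟨r, Or.inl rfl, hnr⟩
    · by_cases hnb : n b = 0
      · obtain ⟨t, ht⟩ := eq_smul S h2 hl' hm hn hlb hmb hm0 hnb
        refine ⟨b2, ?_, ?_⟩
        · rintro (rfl | rfl)
          · exact hb2 hmr
          · exact hrb2 rfl
        · have ht0 : t ≠ 0 := by
            rintro rfl
            rw [zero_smul] at ht
            exact hn0 ht
          rw [ht, Pi.smul_apply, smul_eq_mul]
          exact mul_ne_zero ht0 hb2
      · refine ⟨b, ?_, hnb⟩
        rintro (rfl | rfl)
        · exact hrb rfl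
        · exact hr2 hmb
  · by_cases hS : ∃ μ ∈ S, μ ≠ 0
    · obtain ⟨l, hl, hl0⟩ := hS
      obtain ⟨c1, c2, c3, hc1, hc2, hc3, h12, h13, h23⟩ :=
        Finset.two_lt_card_iff.1 (by have := h3 l hl hl0; omega : 2 < (supp l).card)
      rw [mem_supp] at hc1 hc2 hc3
      by_cases h4 : ∃ c4, c4 ≠ c1 ∧ c4 ≠ c2 ∧ c4 ≠ c3 ∧ ∃ l' ∈ S, l' c4 ≠ 0
      · obtain ⟨c4, h41, h42, h43, l', hl', hl4⟩ := h4
        refine ⟨fun c => c = c1 ∨ c = c2, fun n hn hn0 => ⟨?_, ?_⟩⟩
        · by_contra hno
          push Not at hno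
          exact hA ⟨c1, c2, h12, n, hn, hn0, hno c1 (Or.inl rfl), hno c2 (Or.inr rfl),
            ⟨l, hl, hc1⟩, l, hl, hc2⟩
        · by_contra hno
          push Not at hno
          refine hA ⟨c3, c4, h43.symm, n, hn, hn0, hno c3 ?_, hno c4 ?_, ⟨l, hl, hc3⟩, l', hl', hl4⟩
          · exact ⟨h13.symm, h23.symm⟩
          · exact ⟨h41, h42⟩
      · push Not at h4
        refine ⟨fun c => c = c1, fun n hn hn0 => ?_⟩
        have h5 := h3 n hn hn0
        have h6 : supp n ⊆ {c1, c2, c3} := by
          intro c hc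
          rw [mem_supp] at hc
          by_contra hno
          simp only [Finset.mem_insert, Finset.mem_singleton, not_or] at hno
          exact hc (h4 c hno.1 hno.2.1 hno.2.2 n hn)
        have h7 : ({c1, c2, c3} : Finset C).card ≤ 3 := Finset.card_le_three
        have h8 : supp n = {c1, c2, c3} := Finset.eq_of_subset_of_card_le h6 (by omega)
        refine ⟨⟨c1, rfl, ?_⟩, c2, h12.symm, ?_⟩
        · rw [← mem_supp, h8]
          simp
        · rw [← mem_supp, h8]
          simp
    · push Not at hS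
      exact ⟨fun _ => True, fun μ hμ h => absurd (hS μ hμ) h⟩

end Colouring

/-! ### The theorem -/

section Main

variable {V E : Type} [Fintype V] [DecidableEq V] [Fintype E] [DecidableEq E]

/-- Same value up to sign. -/
def rel (φ : E → EuclideanSpace ℝ (Fin 3)) : Setoid E where
  r e e' := φ e = φ e' ∨ φ e = - φ e'
  iseqv :=
    { refl := fun _ => Or.inl rfl
      symm := by
        rintro x y (h | h)
        · exact Or.inl h.symm
        · right
          rw [h, neg_neg]
      trans := by
        rintro x y z (h | h) (h' | h')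
        · exact Or.inl (h.trans h')
        · exact Or.inr (h.trans h')
        · right
          rw [h, h']
        · left
          rw [h, h', neg_neg] }

/-- The classes of edges. -/
def Cls (φ : E → EuclideanSpace ℝ (Fin 3)) : Type := Quotient (rel φ)

/-- The class of an edge. -/
def cl (φ : E → EuclideanSpace ℝ (Fin 3)) (e : E) : Cls φ := Quotient.mk (rel φ) e

/-- The representing vector of a class. -/
noncomputable def w (φ : E → EuclideanSpace ℝ (Fin 3)) (c : Cls φ) : EuclideanSpace ℝ (Fin 3) :=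
  φ (Quotient.out c)

variable {φ : E → EuclideanSpace ℝ (Fin 3)}

lemma w_ne {c c' : Cls φ} (h : c ≠ c') : w φ c ≠ w φ c' ∧ w φ c ≠ - w φ c' := by
  constructor
  · intro h1
    apply h
    rw [← Quotient.out_eq c, ← Quotient.out_eq c']
    exact Quotient.sound (Or.inl h1)
  · intro h1
    apply h
    rw [← Quotient.out_eq c, ← Quotient.out_eq c']
    exact Quotient.sound (Or.inr h1)

lemma w_cl (e : E) : φ e = w φ (cl φ e) ∨ φ e = - w φ (cl φ e) := by
  have h : (rel φ).r (Quotient.out (cl φ e)) e := Quotient.mk_out (s := rel φ) e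
  rcases h with h | h
  · exact Or.inl h.symm
  · right
    rw [w, h, neg_neg]

open Classical in
/-- The sign of an edge relative to the representing vector of its class. -/
noncomputable def sg (φ : E → EuclideanSpace ℝ (Fin 3)) (e : E) : ℤ :=
  if φ e = w φ (cl φ e) then 1 else -1

lemma sg_eq (e : E) : sg φ e = 1 ∨ sg φ e = -1 := by
  rw [sg]
  split_ifs
  · exact Or.inl rfl
  · exact Or.inr rfl

lemma phi_eq (e : E) : φ e = (sg φ e : ℝ) • w φ (cl φ e) := by
  rw [sg]
  split_ifs with h
  · simpa using h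
  · simpa using (w_cl e).resolve_left h

/-- From functions on the values to functions on the classes. -/
noncomputable def Th (φ : E → EuclideanSpace ℝ (Fin 3)) :
    (EuclideanSpace ℝ (Fin 3) → ℚ) →ₗ[ℚ] (Cls φ → ℚ) where
  toFun l c := l (w φ c) - l (- w φ c)
  map_add' a b := by
    ext c
    simp
    ring
  map_smul' t a := by
    ext c
    simp
    ring

open Classical in
lemma Th_balanced (hu : ∀ e, ‖φ e‖ = 1) (src tgt : E → V) (v : V) (c : Cls φ) :
    Th φ (balanced src tgt φ v) c =
      net' src tgt (fun e => if cl φ e = c then (sg φ e : ℚ) else 0) v := by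
  have hw : w φ c ≠ - w φ c := by
    intro h
    have h1 : ‖w φ c‖ = 1 := hu _
    have h2 : w φ c = 0 := by
      have h3 : (2 : ℝ) • w φ c = 0 := by
        rw [two_smul]
        nth_rewrite 1 [h]
        simp
      exact (smul_eq_zero.1 h3).resolve_left two_ne_zero
    rw [h2, norm_zero] at h1
    exact zero_ne_one h1
  have hpt : ∀ e, (if cl φ e = c then (sg φ e : ℚ) else 0) =
      (if φ e = w φ c then (1 : ℚ) else 0) - (if φ e = - w φ c then (1 : ℚ) else 0) := by
    intro e
    by_cases he : cl φ e = c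
    · rw [if_pos he, sg]
      subst he
      by_cases h1 : φ e = w φ (cl φ e)
      · rw [if_pos h1, if_pos h1, if_neg (by rw [h1]; exact hw)]
        simp
      · have h2 := (w_cl e).resolve_left h1
        rw [if_neg h1, if_neg h1, if_pos h2]
        simp
    · rw [if_neg he]
      have h1 := w_ne he
      have h2 : φ e ≠ w φ c ∧ φ e ≠ - w φ c := by
        rcases w_cl (φ := φ) e with h3 | h3
        · rw [h3]
          exact h1
        · rw [h3]
          constructor
          · intro h4
            apply h1.2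
            rw [← h4, neg_neg]
          · intro h4
            exact h1.1 (neg_injective h4)
      rw [if_neg h2.1, if_neg h2.2, sub_zero]
  show balanced src tgt φ v (w φ c) - balanced src tgt φ v (- w φ c) = _
  simp_rw [hpt]
  simp only [balanced, net_eq, net']
  rw [← Finset.sum_sub_distrib]
  apply Finset.sum_congr rfl
  intro e _
  split_ifs <;> ring

noncomputable instance : Fintype (Cls φ) := by
  classical
  exact inferInstanceAs (Fintype (Quotient (rel φ)))

lemma relation (hu : ∀ e, ‖φ e‖ = 1) (src tgt : E → V) (hφ : IsFlow src tgt φ)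
    (l : EuclideanSpace ℝ (Fin 3) → ℚ) (hl : l ∈ SQ src tgt φ) :
    ∑ c : Cls φ, ((Th φ l c : ℚ) : ℝ) • w φ c = 0 := by
  classical
  induction hl using Submodule.span_induction with
  | mem x hx =>
    obtain ⟨v, rfl⟩ := hx
    simp_rw [Th_balanced hu]
    have h1 : ∀ c : Cls φ, ((net' src tgt (fun e => if cl φ e = c then (sg φ e : ℚ) else 0) v : ℚ) :
        ℝ) • w φ c = net' src tgt (fun e => if cl φ e = c then (sg φ e : ℝ) • w φ c else 0) v := by
      intro c
      rw [net', net', Rat.cast_sum, Finset.sum_smul]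
      apply Finset.sum_congr rfl
      intro e _
      split_ifs <;> simp
    simp_rw [h1]
    have h2 : ∑ c : Cls φ, net' src tgt (fun e => if cl φ e = c then (sg φ e : ℝ) • w φ c else 0) v =
        net' src tgt φ v := by
      simp_rw [net']
      rw [Finset.sum_comm]
      apply Finset.sum_congr rfl
      intro e _
      have h3 : ∑ c : Cls φ, (if cl φ e = c then (sg φ e : ℝ) • w φ c else 0) = φ e := by
        rw [Finset.sum_ite_eq, if_pos (Finset.mem_univ _), ← phi_eq]
      rw [Finset.sum_sub_distrib]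
      congr 1
      · split_ifs
        · exact h3
        · simp
      · split_ifs
        · exact h3
        · simp
    rw [h2, ← net_eq]
    exact hφ v
  | zero => simp
  | add x y _ _ hx hy =>
    simp only [map_add, Pi.add_apply, Rat.cast_add, add_smul, Finset.sum_add_distrib, hx, hy,
      add_zero]
  | smul t x _ hx =>
    simp only [map_smul, Pi.smul_apply, smul_eq_mul, Rat.cast_mul, mul_smul]
    rw [← Finset.smul_sum, hx, smul_zero]

lemma three_le (hu : ∀ e, ‖φ e‖ = 1) (src tgt : E → V) (hφ : IsFlow src tgt φ)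
    [DecidableEq (Cls φ)] (μ : Cls φ → ℚ) (hμ : μ ∈ (SQ src tgt φ).map (Th φ)) (h0 : μ ≠ 0) :
    3 ≤ (supp μ).card := by
  obtain ⟨l, hl, rfl⟩ := hμ
  have hrel := relation hu src tgt hφ l hl
  set μ := Th φ l with hμ
  have hsum : ∑ c ∈ supp μ, (μ c : ℝ) • w φ c = 0 := by
    rw [← hrel]
    apply Finset.sum_subset (Finset.subset_univ _)
    intro c _ hc
    rw [mem_supp, not_not] at hc
    rw [hc]
    simp
  by_contra hlt
  push Not at hlt
  have hw : ∀ c : Cls φ, ‖w φ c‖ = 1 := fun c => hu _
  interval_cases hcard : (supp μ).card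
  · rw [Finset.card_eq_zero] at hcard
    apply h0
    ext c
    by_contra hc
    have : c ∈ supp μ := mem_supp.2 hc
    rw [hcard] at this
    simp at this
  · obtain ⟨c, hc⟩ := Finset.card_eq_one.1 hcard
    rw [hc, Finset.sum_singleton, smul_eq_zero] at hsum
    have hc' : μ c ≠ 0 := by
      rw [← mem_supp, hc]
      simp
    rcases hsum with h | h
    · exact hc' (by exact_mod_cast h)
    · have := hw c
      rw [h, norm_zero] at this
      exact zero_ne_one this
  · obtain ⟨c, c', hcc, hc⟩ := Finset.card_eq_two.1 hcard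
    rw [hc, Finset.sum_pair hcc] at hsum
    have hc0 : μ c ≠ 0 := by
      rw [← mem_supp, hc]
      simp
    have hc0' : (μ c : ℝ) ≠ 0 := by exact_mod_cast hc0
    have h1 : (μ c : ℝ) • w φ c = -((μ c' : ℝ) • w φ c') := eq_neg_of_add_eq_zero_left hsum
    have h2 : |(μ c : ℝ)| = |(μ c' : ℝ)| := by
      have := congrArg norm h1
      rwa [norm_neg, norm_smul, norm_smul, hw, hw, mul_one, mul_one, Real.norm_eq_abs,
        Real.norm_eq_abs] at this
    have h3 := w_ne hcc
    rcases abs_eq_abs.1 h2 with h | h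
    · apply h3.2
      have h4 : (μ c : ℝ) • w φ c = (μ c : ℝ) • (- w φ c') := by
        rw [h1, ← h, smul_neg]
      exact smul_right_injective _ hc0' h4
    · apply h3.1
      have h4 : (μ c : ℝ) • w φ c = (μ c : ℝ) • w φ c' := by
        rw [h1, h, neg_smul]
      exact smul_right_injective _ hc0' h4

lemma cut (hu : ∀ e, ‖φ e‖ = 1) (src tgt : E → V) (Q : Cls φ → Prop)
    (hQ : ∀ μ ∈ (SQ src tgt φ).map (Th φ), μ ≠ 0 → ∃ c, ¬ Q c ∧ μ c ≠ 0)
    (X : V → ZMod 2) (hX : ∀ e, ¬ Q (cl φ e) → X (src e) = X (tgt e)) :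
    ∑ e, (X (src e) + X (tgt e)) = 0 := by
  classical
  set ν : Cls φ → ℚ := Th φ (∑ v ∈ univ.filter (fun v => X v = 1), balanced src tgt φ v) with hν
  have hmem : ν ∈ (SQ src tgt φ).map (Th φ) :=
    ⟨_, Submodule.sum_mem _ (fun v _ => Submodule.subset_span ⟨v, rfl⟩), rfl⟩
  have hval : ∀ c, ν c = ∑ e, (if cl φ e = c then (sg φ e : ℚ) else 0) *
      ((if X (src e) = 1 then 1 else 0) - (if X (tgt e) = 1 then 1 else 0)) := by
    intro c
    rw [hν, map_sum, Finset.sum_apply]
    simp_rw [Th_balanced hu, net']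
    rw [Finset.sum_comm]
    apply Finset.sum_congr rfl
    intro e _
    rw [Finset.sum_sub_distrib, Finset.sum_ite_eq, Finset.sum_ite_eq]
    simp only [Finset.mem_filter, Finset.mem_univ, true_and]
    split_ifs <;> ring
  have h0 : ν = 0 := by
    by_contra hne
    obtain ⟨c, hc, hc0⟩ := hQ ν hmem hne
    apply hc0
    rw [hval]
    apply Finset.sum_eq_zero
    intro e _
    by_cases he : cl φ e = c
    · have h1 := hX e (by rw [he]; exact hc)
      rw [h1]
      simp
    · rw [if_neg he, zero_mul]
  have hsum : ∑ e, (sg φ e : ℚ) *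
      ((if X (src e) = 1 then 1 else 0) - (if X (tgt e) = 1 then 1 else 0)) = 0 := by
    have h1 : ∑ c : Cls φ, ν c = 0 := by rw [h0]; simp
    simp_rw [hval] at h1
    rw [Finset.sum_comm] at h1
    refine Eq.trans ?_ h1
    apply Finset.sum_congr rfl
    intro e _
    rw [← Finset.sum_mul, Finset.sum_ite_eq, if_pos (Finset.mem_univ _)]
  have hsumZ : ∑ e, sg φ e *
      ((if X (src e) = 1 then (1 : ℤ) else 0) - (if X (tgt e) = 1 then 1 else 0)) = 0 := by
    have h2 : ((∑ e, sg φ e * ((if X (src e) = 1 then (1 : ℤ) else 0) -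
        (if X (tgt e) = 1 then 1 else 0)) : ℤ) : ℚ) = 0 := by
      push_cast
      exact hsum
    exact_mod_cast h2
  have h3 := congrArg (fun z : ℤ => (z : ZMod 2)) hsumZ
  simp only [Int.cast_sum, Int.cast_mul, Int.cast_sub, Int.cast_ite, Int.cast_one,
    Int.cast_zero] at h3
  rw [← h3]
  apply Finset.sum_congr rfl
  intro e _
  have h4 : ((sg φ e : ℤ) : ZMod 2) = 1 := by
    rcases sg_eq (φ := φ) e with h | h <;> rw [h] <;> decide
  rw [h4]
  rcases zmod2 (X (src e)) with h5 | h5 <;> rcases zmod2 (X (tgt e)) with h6 | h6 <;>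
    rw [h5, h6] <;> decide

lemma half (hu : ∀ e, ‖φ e‖ = 1) (src tgt : E → V) (Q : Cls φ → Prop)
    (hQ : ∀ μ ∈ (SQ src tgt φ).map (Th φ), μ ≠ 0 → ∃ c, ¬ Q c ∧ μ c ≠ 0) :
    ∃ A : E → ZMod 2, bd src tgt A = 0 ∧ ∀ e, Q (cl φ e) → A e = 1 := by
  classical
  let I : E → ZMod 2 := fun e => if Q (cl φ e) then 1 else 0
  obtain ⟨J, hJ1, hJ2⟩ := exists_join src tgt (fun e => Q (cl φ e)) (bd src tgt I) (by
    intro X hX
    rw [sum_mul_bd, ← cut hu src tgt Q hQ X hX]
    apply Finset.sum_congr rfl
    intro e _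
    by_cases he : Q (cl φ e)
    · have : I e = 1 := if_pos he
      rw [this, one_mul]
    · have h1 : I e = 0 := if_neg he
      rw [h1, zero_mul, hX e he]
      rcases zmod2 (X (tgt e)) with h | h <;> rw [h] <;> decide)
  refine ⟨I + J, ?_, ?_⟩
  · rw [map_add, hJ2]
    ext v
    show bd src tgt I v + bd src tgt I v = 0
    rcases zmod2 (bd src tgt I v) with h | h <;> rw [h] <;> decide
  · intro e he
    show I e + J e = 1
    have : I e = 1 := if_pos he
    rw [this, hJ1 e he, add_zero]

/-- If a finite graph `G` (parallel edges and loops allowed) has an orientation (`src`, `tgt`)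
carrying an `S²`-flow `φ` (a flow with values unit vectors of `ℝ³`) whose span of balanced vectors
has rank at most two, then `G` has a `4`-flow. -/
theorem result : ∀ (V E : Type) [Fintype V] [DecidableEq V] [Fintype E] [DecidableEq E]
    (src tgt : E → V) (φ : E → EuclideanSpace ℝ (Fin 3)),
    IsFlow src tgt φ → (∀ e, ‖φ e‖ = 1) → Module.finrank ℚ (SQ src tgt φ) ≤ 2 →
      ∃ ψ : E → ℤ, IsFlow src tgt ψ ∧ ∀ e, 0 < |ψ e| ∧ |ψ e| < 4 := by
  intro V E _ _ _ _ src tgt φ hφ hu hr
  classical
  have hfin : FiniteDimensional ℚ (SQ src tgt φ) :=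
    FiniteDimensional.span_of_finite ℚ (Set.finite_range _)
  have hr' : Module.finrank ℚ ((SQ src tgt φ).map (Th φ)) ≤ 2 :=
    (Submodule.finrank_map_le _ _).trans hr
  obtain ⟨K, hK⟩ := colouring ((SQ src tgt φ).map (Th φ)) hr'
    (fun μ hμ h0 => three_le hu src tgt hφ μ hμ h0)
  obtain ⟨A, hA, hA'⟩ := half hu src tgt K (fun μ hμ h0 => (hK μ hμ h0).2)
  obtain ⟨B, hB, hB'⟩ := half hu src tgt (fun c => ¬ K c) (fun μ hμ h0 => by
    obtain ⟨c, hc, hc0⟩ := (hK μ hμ h0).1
    exact ⟨c, not_not.2 hc, hc0⟩)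
  obtain ⟨g, hg1, hg2⟩ := four_flow src tgt A B hA hB (fun e => by
    by_cases h : K (cl φ e)
    · exact Or.inl (hA' e h)
    · exact Or.inr (hB' e h))
  exact ⟨g, fun v => by rw [net_eq]; exact hg1 v, hg2⟩

end Main

end Pool.Agent.Results.MP_12428a_co.RankTwo
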